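import Pool.Agent.H67.AG.T1

/-!
# Change of measure
-/

set_option autoImplicit false

open MeasureTheory ProbabilityTheory Filter Topology Finset
open scoped Nat ENNReal

namespace Pool.Agent.H42.AG

open Pool.Agent.H67.AG

section

variable {Ω : Type} [MeasurableSpace Ω]

lemma av_meas (T : Ω ≃ᵐ Ω) (W n : ℕ) {f : Ω → ℝ} (hf : Measurable f) :
    Measurable (Av T W n f) := by
  unfold Av
  refine Measurable.div_const ?_ _
  refine Finset.measurable_sum _ fun l _ => ?_
  exact hf.comp (T.measurable.iterate _)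

lemma av_le (T : Ω ≃ᵐ Ω) (W n : ℕ) {f : Ω → ℝ} (h1 : ∀ ω, |f ω| ≤ 1) (ω : Ω) :
    |Av T W n f ω| ≤ 1 := by
  unfold Av
  rw [abs_div, Nat.abs_cast]
  refine div_le_one_of_le₀ ?_ (Nat.cast_nonneg _)
  refine (Finset.abs_sum_le_sum_abs _ _).trans ?_
  refine (Finset.sum_le_card_nsmul _ _ 1 fun l _ => h1 _).trans ?_
  simp

/-- a subsequence of the ergodic averages converges almost everywhere -/
lemma sub_ae (h : T_ME) (P : Measure Ω) [IsProbabilityMeasure P] (T : Ω ≃ᵐ Ω) (W : ℕ)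
    {f : Ω → ℝ} (hT : MeasurePreserving T P P) (hf : Measurable f) (h1 : ∀ ω, |f ω| ≤ 1)
    (ns : ℕ → ℕ) (hns : StrictMono ns) : ∃ ms : ℕ → ℕ, StrictMono ms ∧
      ∀ᵐ ω ∂P, Tendsto (fun i => Av T W (ns (ms i)) f ω) atTop (𝓝 ((P[f | Inv T W]) ω)) := by
  have hlim := (h Ω P T W f hT hf h1).comp hns.tendsto_atTop
  have hb : ∀ᵐ ω ∂P, |(P[f | Inv T W]) ω| ≤ 1 :=
    ae_bdd_abs_condExp_of_ae_bdd_abs (R := (1 : ℝ)) (ae_of_all _ h1)
  have hmeas : ∀ n, AEStronglyMeasurable
      (fun ω => (Av T W (ns n) f ω - (P[f | Inv T W]) ω) ^ 2) P := fun n =>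
    ((av_meas T W (ns n) hf).aestronglyMeasurable.sub
      integrable_condExp.aestronglyMeasurable).pow 2
  have hint : ∀ n, Integrable (fun ω => (Av T W (ns n) f ω - (P[f | Inv T W]) ω) ^ 2) P := by
    intro n
    refine Integrable.of_bound (hmeas n) 4 ?_
    filter_upwards [hb] with ω hω
    rw [Real.norm_eq_abs, abs_of_nonneg (sq_nonneg _)]
    have h2 := av_le T W (ns n) h1 ω
    have h3 : |Av T W (ns n) f ω - (P[f | Inv T W]) ω| ≤ 2 := (abs_sub _ _).trans (by linarith)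
    have h4 := sq_abs (Av T W (ns n) f ω - (P[f | Inv T W]) ω)
    nlinarith [abs_nonneg (Av T W (ns n) f ω - (P[f | Inv T W]) ω)]
  have hTM : TendstoInMeasure P
      (fun n ω => (Av T W (ns n) f ω - (P[f | Inv T W]) ω) ^ 2) atTop (fun _ => (0 : ℝ)) := by
    refine tendstoInMeasure_of_tendsto_eLpNorm (p := 1) one_ne_zero hmeas
      aestronglyMeasurable_const ?_
    have he : ∀ n, eLpNorm ((fun ω => (Av T W (ns n) f ω - (P[f | Inv T W]) ω) ^ 2) -
        fun _ => (0 : ℝ)) 1 P =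
        ENNReal.ofReal (∫ ω, (Av T W (ns n) f ω - (P[f | Inv T W]) ω) ^ 2 ∂P) := by
      intro n
      rw [eLpNorm_one_eq_lintegral_enorm, ← ofReal_integral_norm_eq_lintegral_enorm]
      · congr 1
        refine integral_congr_ae (ae_of_all _ fun ω => ?_)
        simp
      · exact (hint n).sub (integrable_const 0)
    have h5 : Tendsto (fun n => ENNReal.ofReal
        (∫ ω, (Av T W (ns n) f ω - (P[f | Inv T W]) ω) ^ 2 ∂P)) atTop (𝓝 0) := by
      have := (ENNReal.continuous_ofReal.tendsto 0).comp hlim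
      rwa [ENNReal.ofReal_zero] at this
    refine h5.congr fun n => (he n).symm
  obtain ⟨ms, hms, hae⟩ := hTM.exists_seq_tendsto_ae
  refine ⟨ms, hms, ?_⟩
  filter_upwards [hae] with ω hω
  have h6 : Tendsto (fun i => |Av T W (ns (ms i)) f ω - (P[f | Inv T W]) ω|) atTop (𝓝 0) := by
    have h7 := (Real.continuous_sqrt.tendsto 0).comp hω
    rw [Real.sqrt_zero] at h7
    refine h7.congr fun i => ?_
    simp only [Function.comp, Real.sqrt_sq_eq_abs]
  have h8 := (tendsto_zero_iff_abs_tendsto_zero _).2 h6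
  have h9 := h8.add_const ((P[f | Inv T W]) ω)
  rw [zero_add] at h9
  refine h9.congr fun i => ?_
  ring

end

theorem pf_CH (h : T_ME) : T_CH := by
  intro Ω _ P ν _ _ T W f hTP hTν hνP hf hC
  obtain ⟨C, hC⟩ := hC
  -- the bounded case
  have key : ∀ f : Ω → ℝ, Measurable f → (∀ ω, |f ω| ≤ 1) →
      ν[f | Inv T W] =ᵐ[ν] P[f | Inv T W] := by
    intro f hf h1
    obtain ⟨ns, hns, hP⟩ := sub_ae h P T W hTP hf h1 id strictMono_id
    obtain ⟨ms, hms, hν⟩ := sub_ae h ν T W hTν hf h1 ns hns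
    filter_upwards [hν, hνP.ae_le hP] with ω h2 h3
    exact tendsto_nhds_unique h2 (h3.comp hms.tendsto_atTop)
  set K : ℝ := max C 1 with hK
  have hKpos : 0 < K := lt_of_lt_of_le one_pos (le_max_right _ _)
  have hfK : f = K • fun ω => f ω / K := by
    funext ω
    simp only [Pi.smul_apply, smul_eq_mul]
    field_simp
  have h1 := key (fun ω => f ω / K) (hf.div_const K) (fun ω => by
    rw [abs_div, abs_of_pos hKpos]
    exact div_le_one_of_le₀ ((hC ω).trans (le_max_left _ _)) hKpos.le)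
  rw [hfK]
  have h2 : ν[K • (fun ω => f ω / K) | Inv T W] =ᵐ[ν] K • ν[fun ω => f ω / K | Inv T W] :=
    condExp_smul _ _ _
  have h3 : P[K • (fun ω => f ω / K) | Inv T W] =ᵐ[P] K • P[fun ω => f ω / K | Inv T W] :=
    condExp_smul _ _ _
  filter_upwards [h1, h2, hνP.ae_le h3] with ω e1 e2 e3
  rw [e2, e3, Pi.smul_apply, Pi.smul_apply, e1]

end Pool.Agent.H42.AG
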