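import Pool.Agent.H67.AG.T1

/-!
# Naturality for the rational sets
-/

set_option autoImplicit false

open MeasureTheory ProbabilityTheory Filter Topology Finset
open scoped Nat ENNReal

namespace Pool.Agent.H42.AG

open Pool.Agent.H67.AG

theorem pf_NR (h1 : T_NA) (h2 : T_LV) : T_NR := by
  intro Ω Ω' _ _ P _ P' _ T T' g f hT hT' hg hf hC
  have hgm : MeasurePreserving g P P' := hg.1
  have hfg : Measurable fun ω => f (g ω) := hf.comp hgm.measurable
  have hC' : ∃ C, ∀ ω, |f (g ω)| ≤ C := by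
    obtain ⟨C, hC⟩ := hC
    exact ⟨C, fun ω => hC (g ω)⟩
  have hBi : Integrable (fun ω => (P'[f | Rt T']) (g ω)) P :=
    (hgm.integrable_comp integrable_condExp.aestronglyMeasurable).2 integrable_condExp
  have hAi : Integrable (P[fun ω => f (g ω) | Rt T]) P := integrable_condExp
  have hle : ∀ ε : ℝ, 0 < ε →
      ∫ ω, |(P[fun ω => f (g ω) | Rt T]) ω - (P'[f | Rt T']) (g ω)| ∂P ≤ 2 * ε := by
    intro ε hε
    obtain ⟨w, hw⟩ := h2 Ω P T (fun ω => f (g ω)) ε hfg hC' hε
    obtain ⟨w', hw'⟩ := h2 Ω' P' T' f ε hf hC hε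
    have hpos : 0 < (max w w')! := Nat.factorial_pos _
    have a1 := hw _ hpos (Nat.factorial_dvd_factorial (le_max_left w w'))
    have a2 := hw' _ hpos (Nat.factorial_dvd_factorial (le_max_right w w'))
    have a3 := h1 Ω Ω' P P' T T' g (max w w')! f hT hT' hg hf hC
    set W := (max w w')! with hW
    have hi1 : Integrable (fun ω => (P'[f | Inv T' W]) (g ω)) P :=
      (hgm.integrable_comp integrable_condExp.aestronglyMeasurable).2 integrable_condExp
    have b2 : ∫ ω, |(P'[f | Rt T']) (g ω) - (P'[f | Inv T' W]) (g ω)| ∂P ≤ ε := by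
      have e1 : ∫ ω, |(P'[f | Rt T']) (g ω) - (P'[f | Inv T' W]) (g ω)| ∂P =
          ∫ y, |(P'[f | Rt T']) y - (P'[f | Inv T' W]) y| ∂P' := by
        have hm : AEStronglyMeasurable
            (fun y => |(P'[f | Rt T']) y - (P'[f | Inv T' W]) y|) (P.map g) := by
          rw [hgm.map_eq]
          have i1 : Integrable (P'[f | Rt T']) P' := integrable_condExp
          have i2 : Integrable (P'[f | Inv T' W]) P' := integrable_condExp
          exact (i1.sub i2).abs.aestronglyMeasurable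
        have e2 := integral_map hgm.measurable.aemeasurable hm
        rw [hgm.map_eq] at e2
        exact e2.symm
      rw [e1]
      exact a2
    calc ∫ ω, |(P[fun ω => f (g ω) | Rt T]) ω - (P'[f | Rt T']) (g ω)| ∂P
        ≤ ∫ ω, (|(P[fun ω => f (g ω) | Rt T]) ω - (P[fun ω => f (g ω) | Inv T W]) ω| +
            |(P'[f | Rt T']) (g ω) - (P'[f | Inv T' W]) (g ω)|) ∂P := by
          refine integral_mono_ae (hAi.sub hBi).abs
            ((hAi.sub integrable_condExp).abs.add (hBi.sub hi1).abs) ?_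
          filter_upwards [a3] with ω hω
          change |(P[fun ω => f (g ω) | Rt T]) ω - (P'[f | Rt T']) (g ω)| ≤
            |(P[fun ω => f (g ω) | Rt T]) ω - (P[fun ω => f (g ω) | Inv T W]) ω| +
            |(P'[f | Rt T']) (g ω) - (P'[f | Inv T' W]) (g ω)|
          rw [hω, abs_sub_comm ((P'[f | Rt T']) (g ω)) ((P'[f | Inv T' W]) (g ω))]
          exact abs_sub_le _ _ _
      _ = (∫ ω, |(P[fun ω => f (g ω) | Rt T]) ω - (P[fun ω => f (g ω) | Inv T W]) ω| ∂P) +
            ∫ ω, |(P'[f | Rt T']) (g ω) - (P'[f | Inv T' W]) (g ω)| ∂P :=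
          integral_add (hAi.sub integrable_condExp).abs (hBi.sub hi1).abs
      _ ≤ 2 * ε := by linarith
  have h0 : ∫ ω, |(P[fun ω => f (g ω) | Rt T]) ω - (P'[f | Rt T']) (g ω)| ∂P = 0 := by
    refine le_antisymm ?_ (integral_nonneg fun ω => abs_nonneg _)
    refine le_of_forall_pos_le_add fun ε hε => ?_
    have := hle (ε / 2) (by positivity)
    linarith
  have h3 := (integral_eq_zero_iff_of_nonneg (fun ω => abs_nonneg
    ((P[fun ω => f (g ω) | Rt T]) ω - (P'[f | Rt T']) (g ω))) (hAi.sub hBi).abs).1 h0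
  filter_upwards [h3] with ω hω
  have : |(P[fun ω => f (g ω) | Rt T]) ω - (P'[f | Rt T']) (g ω)| = 0 := hω
  exact sub_eq_zero.1 (abs_eq_zero.1 this)

end Pool.Agent.H42.AG
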