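import Pool.Agent.H64.AG.Defs

/-!
# Approximate co-countable convergence gives condensation points
-/

set_option autoImplicit false

open Topology Cardinal

namespace Pool.Agent.H42.AG

open Pool.Agent.H64.AG Pool.Agent.H64.AK Pool.Agent.H20.SL Pool.Agent.H60.CP

/-- basic neighbourhoods in the product topology -/
theorem exists_delta {Y : Type} {U : Set (Y → ℝ)} (hU : IsOpen U) {v : Y → ℝ} (hv : v ∈ U) :
    ∃ (F : Finset Y) (δ : ℝ), 0 < δ ∧ ∀ w : Y → ℝ, (∀ j ∈ F, |w j - v j| < δ) → w ∈ U := by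
  obtain ⟨F, u, hu, hFu⟩ := isOpen_pi_iff.mp hU v hv
  have hε : ∃ ε > 0, ∀ x ∈ F, Metric.ball (v x) ε ⊆ u x := by
    clear hFu
    classical
    induction F using Finset.induction_on with
    | empty => exact ⟨1, one_pos, by simp⟩
    | insert a s ha ih =>
      obtain ⟨ε, hε, h⟩ := ih fun b hb => hu b (Finset.mem_insert_of_mem hb)
      obtain ⟨ε', hε', h'⟩ := Metric.isOpen_iff.mp (hu a (Finset.mem_insert_self _ _)).1 _
        (hu a (Finset.mem_insert_self _ _)).2
      refine ⟨min ε ε', lt_min hε hε', ?_⟩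
      intro x hx
      rcases Finset.mem_insert.mp hx with rfl | hx
      · exact (Metric.ball_subset_ball (min_le_right _ _)).trans h'
      · exact (Metric.ball_subset_ball (min_le_left _ _)).trans (h x hx)
  obtain ⟨ε, hε, hball⟩ := hε
  refine ⟨F, ε, hε, fun w hw => hFu fun j hj => hball j hj ?_⟩
  rw [Metric.mem_ball, Real.dist_eq]
  exact hw j hj

theorem cn2 (hSW : Pool.Agent.H64.AK.T_SW) (hSTP2 : T_STP2) : T_CN2 := by
  intro X _ _ E hE hSep hCo I f hI
  choose e p he hp using fun (i : I) (n : ℕ) =>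
    hSW X E hE hSep (f i) (1 / ((n : ℝ) + 1)) (by positivity)
  obtain ⟨J, q, c, -, hJu, hc, hJq, hJ⟩ := hSTP2 X E hCo I e p (fun i n j => he i n j) hI
  let G : ℕ → X → ℝ := fun n x => MvPolynomial.aeval (fun j => c n j x) (q n)
  have hpc : ∀ n, Continuous fun v : ℕ → ℝ => MvPolynomial.aeval v (q n) := by
    intro n
    have ha : (fun v : ℕ → ℝ => MvPolynomial.aeval v (q n)) = fun v => MvPolynomial.eval v
        (MvPolynomial.map (algebraMap ℚ ℝ) (q n)) := by
      funext v
      rw [MvPolynomial.eval_map]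
      rfl
    rw [ha]
    exact MvPolynomial.continuous_eval _
  -- the functions of the family are near `G n`
  have h1 : ∀ n x, ∃ M, ∀ m, M ≤ m →
      {i | i ∈ J m ∧ ¬ |(f i).1 x - G n x| < 2 / ((n : ℝ) + 1)}.Countable := by
    intro n x
    have hη : 0 < 1 / ((n : ℝ) + 1) := by positivity
    obtain ⟨F, δ, hδ, hF⟩ := exists_delta
      (U := {v : ℕ → ℝ | |MvPolynomial.aeval v (q n) - G n x| < 1 / ((n : ℝ) + 1)})
      (isOpen_lt ((hpc n).sub continuous_const).abs continuous_const)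
      (v := fun j => c n j x) (by
        show |G n x - G n x| < 1 / ((n : ℝ) + 1)
        rw [sub_self, abs_zero]
        exact hη)
    obtain ⟨k, hk⟩ := exists_nat_one_div_lt hδ
    choose M hM using fun j => hJ n j k
    obtain ⟨M₀, hM₀⟩ := hJq n
    refine ⟨F.sup M ⊔ M₀, fun m hm => ?_⟩
    have hm0 : M₀ ≤ m := le_trans le_sup_right hm
    have hmj : ∀ j ∈ F, M j ≤ m := fun j hj =>
      (Finset.le_sup (f := M) hj).trans (le_trans le_sup_left hm)
    have hcount : (⋃ j ∈ F, {i | i ∈ J m ∧ 1 / ((k : ℝ) + 1) ≤ |e i n j x - c n j x|}).Countable := by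
      refine Set.Countable.biUnion (Finset.countable_toSet _) fun j hj => ?_
      exact hM j m (hmj j hj) x
    refine hcount.mono ?_
    rintro i ⟨hi, hbad⟩
    by_contra hcon
    apply hbad
    have hnear : ∀ j ∈ F, |e i n j x - c n j x| < δ := by
      intro j hj
      by_contra hne
      exact hcon (Set.mem_biUnion (show j ∈ (F : Set ℕ) from hj)
        ⟨hi, hk.le.trans (not_lt.mp hne)⟩)
    have hG : |MvPolynomial.aeval (fun j => e i n j x) (p i n) - G n x| < 1 / ((n : ℝ) + 1) := by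
      rw [hM₀ m hm0 i hi]
      exact hF (fun j => e i n j x) hnear
    have h3 := hp i n x
    have h4 : (f i).1 x - G n x = ((f i).1 x - MvPolynomial.aeval (fun j => e i n j x) (p i n)) +
        (MvPolynomial.aeval (fun j => e i n j x) (p i n) - G n x) := by ring
    have h5 : 2 / ((n : ℝ) + 1) = 1 / ((n : ℝ) + 1) + 1 / ((n : ℝ) + 1) := by ring
    rw [h4, h5]
    exact (abs_add_le _ _).trans_lt (add_lt_add h3 hG)
  choose M hM using h1
  have hbadF : ∀ (n m : ℕ) (F : Finset X), (∀ x ∈ F, M n x ≤ m) →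
      {i | i ∈ J m ∧ ¬ ∀ x ∈ F, |(f i).1 x - G n x| < 2 / ((n : ℝ) + 1)}.Countable := by
    intro n m F hm
    have hcount : (⋃ x ∈ F, {i | i ∈ J m ∧ ¬ |(f i).1 x - G n x| < 2 / ((n : ℝ) + 1)}).Countable :=
      Set.Countable.biUnion (Finset.countable_toSet _) fun x hx => hM n x m (hm x hx)
    refine hcount.mono ?_
    rintro i ⟨hi, hbad⟩
    push Not at hbad
    obtain ⟨x, hx, hxb⟩ := hbad
    exact Set.mem_biUnion (show x ∈ (F : Set X) from hx) ⟨hi, not_lt.mpr hxb⟩
  have h2 : ∀ n n' x, |G n x - G n' x| ≤ 2 / ((n : ℝ) + 1) + 2 / ((n' : ℝ) + 1) := by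
    intro n n' x
    have hex : ∃ i ∈ J (max (M n x) (M n' x)), |(f i).1 x - G n x| < 2 / ((n : ℝ) + 1) ∧
        |(f i).1 x - G n' x| < 2 / ((n' : ℝ) + 1) := by
      by_contra hcon
      push Not at hcon
      apply hJu (max (M n x) (M n' x))
      refine ((hM n x (max (M n x) (M n' x)) (le_max_left _ _)).union
        (hM n' x (max (M n x) (M n' x)) (le_max_right _ _))).mono ?_
      intro i hi
      by_cases ha : |(f i).1 x - G n x| < 2 / ((n : ℝ) + 1)
      · exact Or.inr ⟨hi, not_lt.mpr (hcon i hi ha)⟩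
      · exact Or.inl ⟨hi, ha⟩
    obtain ⟨i, -, ha, hb⟩ := hex
    have h3 : G n x - G n' x = ((f i).1 x - G n' x) - ((f i).1 x - G n x) := by ring
    rw [h3]
    refine (abs_sub _ _).trans ?_
    linarith
  have hlim1 : Filter.Tendsto (fun n : ℕ => 1 / ((n : ℝ) + 1)) Filter.atTop (𝓝 0) :=
    tendsto_one_div_add_atTop_nhds_zero_nat
  have hlim : Filter.Tendsto (fun n : ℕ => 2 / ((n : ℝ) + 1)) Filter.atTop (𝓝 0) := by
    have := hlim1.const_mul 2
    simpa [div_eq_mul_inv] using this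
  have hanti : ∀ N n : ℕ, N ≤ n → 2 / ((n : ℝ) + 1) ≤ 2 / ((N : ℝ) + 1) := by
    intro N n h
    have : (N : ℝ) ≤ n := by exact_mod_cast h
    apply div_le_div_of_nonneg_left (by norm_num) (by positivity)
    linarith
  have hcau : ∀ x, CauchySeq (fun n => G n x) := by
    intro x
    refine cauchySeq_of_le_tendsto_0 (fun N : ℕ => 2 / ((N : ℝ) + 1) + 2 / ((N : ℝ) + 1)) ?_ ?_
    · intro n m N hn hm
      rw [Real.dist_eq]
      exact (h2 n m x).trans (add_le_add (hanti N n hn) (hanti N m hm))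
    · simpa using hlim.add hlim
  choose g hg using fun x => cauchySeq_tendsto_of_complete (hcau x)
  have hgG : ∀ n x, |g x - G n x| ≤ 2 / ((n : ℝ) + 1) := by
    intro n x
    have ha : Filter.Tendsto (fun n' => |G n' x - G n x|) Filter.atTop (𝓝 |g x - G n x|) :=
      ((hg x).sub_const _).abs
    have hb : Filter.Tendsto (fun n' : ℕ => 2 / ((n' : ℝ) + 1) + 2 / ((n : ℝ) + 1)) Filter.atTop
        (𝓝 (0 + 2 / ((n : ℝ) + 1))) := hlim.add_const _
    have := le_of_tendsto_of_tendsto' ha hb fun n' => h2 n' n x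
    simpa using this
  have hGc : ∀ n, Continuous (G n) := fun n =>
    (hpc n).comp (continuous_pi fun j => hc n j)
  have hgc : Continuous g := by
    have hu : TendstoUniformly G g Filter.atTop := by
      rw [Metric.tendstoUniformly_iff]
      intro ε hε
      filter_upwards [hlim.eventually (gt_mem_nhds hε)] with n hn x
      rw [Real.dist_eq]
      exact (hgG n x).trans_lt hn
    exact hu.continuous (Filter.Eventually.of_forall hGc).frequently
  refine ⟨⟨g, hgc⟩, ?_⟩
  intro U hU hgU hcount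
  obtain ⟨V, hV, rfl⟩ := isOpen_induced_iff.mp hU
  obtain ⟨F, ε, hε, hFV⟩ := exists_delta hV hgU
  obtain ⟨n, hn⟩ : ∃ n : ℕ, 1 / ((n : ℝ) + 1) < ε / 4 := exists_nat_one_div_lt (by positivity)
  apply hJu (F.sup (M n))
  refine (hcount.union (hbadF n (F.sup (M n)) F fun x hx =>
    Finset.le_sup (f := M n) hx)).mono ?_
  intro i hi
  by_cases hgood : ∀ x ∈ F, |(f i).1 x - G n x| < 2 / ((n : ℝ) + 1)
  · left
    refine hFV (f i).1 fun x hx => ?_
    have h4 := hgood x hx
    have h5 := hgG n x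
    have h6 : (f i).1 x - g x = ((f i).1 x - G n x) - (g x - G n x) := by ring
    have h7 : 2 / ((n : ℝ) + 1) = 2 * (1 / ((n : ℝ) + 1)) := by ring
    rw [h7] at h4 h5
    show |(f i).1 x - g x| < ε
    rw [h6]
    refine (abs_sub _ _).trans_lt ?_
    linarith
  · exact Or.inr ⟨hi, hgood⟩

end Pool.Agent.H42.AG
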