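import Pool.Agent.H64.AG.Defs

/-!
# Density of the rational polynomials in a separating family
-/

set_option autoImplicit false

open Topology Cardinal

namespace Pool.Agent.H42.AG

open Pool.Agent.H64.AG Pool.Agent.H64.AK Pool.Agent.H20.SL Pool.Agent.H60.CP

theorem pol (hSW : Pool.Agent.H64.AK.T_SW) : T_POL := by
  intro X _ _ ι l hl hsep f hf ε hε
  let E : Set (X → ℝ) := insert 0 (Set.range l)
  have hE : E.Nonempty := ⟨0, Or.inl rfl⟩
  have hSep : Sep E := by
    refine ⟨?_, ?_⟩
    · rintro g (rfl | ⟨i, rfl⟩)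
      · exact continuous_const
      · exact hl i
    · intro x y hxy
      by_contra hcon
      push Not at hcon
      exact hxy (hsep x y fun i => hcon (l i) (Or.inr ⟨i, rfl⟩))
  obtain ⟨e, p₀, he, hp⟩ := hSW X E hE hSep ⟨f, hf⟩ ε hε
  have hg : ∀ j, ∃ g : MvPolynomial ι ℚ, ∀ x, ev l g x = e j x := by
    intro j
    rcases he j with h | ⟨i, h⟩
    · exact ⟨0, fun x => by rw [h]; simp [ev]⟩
    · exact ⟨MvPolynomial.X i, fun x => by rw [← h]; simp [ev]⟩
  choose g hg using hg
  refine ⟨MvPolynomial.bind₁ g p₀, fun x => ?_⟩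
  have h1 : ev l (MvPolynomial.bind₁ g p₀) x = MvPolynomial.aeval (fun j => e j x) p₀ := by
    have h2 : (fun j => e j x) = fun j => ev l (g j) x := funext fun j => (hg j x).symm
    rw [h2]
    unfold ev
    rw [MvPolynomial.aeval_bind₁]
  rw [h1]
  exact hp x

end Pool.Agent.H42.AG
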